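import Pool.Agent.N963.GN.Stm2
import Pool.Agent.N963.GN.W

/-!
# Reflection of kernels
-/

set_option autoImplicit false

namespace Pool.Agent.N170.GN

open Pool.Agent.N963.GN
open Complex Filter Topology MeasureTheory Polynomial
open scoped ComplexConjugate

variable {K : ℂ → ℂ} {α : ℝ}

/-- the symmetry of the kernel in the strip -/
theorem herm_strip (hK : Kern K α) (w : ℂ) (hw : |w.im| < α) : K (-conj w) = conj (K w) := by
  set U : Set ℂ := {w | |w.im| < α} with hU
  have hUo : IsOpen U := isOpen_lt (by fun_prop) continuous_const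
  have hUc : Convex ℝ U := by
    have : U = Complex.imLm ⁻¹' Metric.ball 0 α := by
      ext w; simp [hU]
    rw [this]
    exact (convex_ball _ _).linear_preimage _
  have h1 : DifferentiableOn ℂ (conj ∘ (fun w => K (-w)) ∘ conj) U := by
    intro z hz
    have h2 : DifferentiableAt ℂ (fun w => K (-w)) (conj z) := by
      have h3 : DifferentiableAt ℂ K (-(conj z)) := hK.diff _ (by
        have hz' : |z.im| < α := hz
        simpa using hz')
      exact h3.comp (conj z) (differentiable_neg _)
    have h4 := h2.conj_conj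
    rw [Complex.conj_conj] at h4
    exact h4.differentiableWithinAt
  have h2 : DifferentiableOn ℂ K U := fun z hz => (hK.diff z hz).differentiableWithinAt
  have h3 : Set.EqOn (conj ∘ (fun w => K (-w)) ∘ conj) K U := by
    refine (h1.analyticOnNhd hUo).eqOn_of_preconnected_of_frequently_eq
      (h2.analyticOnNhd hUo) hUc.isPreconnected (z₀ := 0) (by simp [hU, hK.pos]) ?_
    have h5 : Tendsto (fun u : ℝ => (u : ℂ)) (𝓝[≠] (0 : ℝ)) (𝓝[≠] (0 : ℂ)) := by
      refine tendsto_nhdsWithin_iff.2 ⟨?_, ?_⟩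
      · have : Tendsto (fun u : ℝ => (u : ℂ)) (𝓝 0) (𝓝 ((0 : ℝ) : ℂ)) :=
          Complex.continuous_ofReal.tendsto 0
        rw [Complex.ofReal_zero] at this
        exact this.mono_left nhdsWithin_le_nhds
      · filter_upwards [self_mem_nhdsWithin] with u hu
        simpa using hu
    refine h5.frequently ?_
    refine (Eventually.of_forall fun u => ?_).frequently
    have h6 := hK.herm u
    simp only [Function.comp_apply, Complex.conj_ofReal]
    rw [← Complex.ofReal_neg, h6, Complex.conj_conj]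
  have h4 := h3 hw
  simp only [Function.comp_apply] at h4
  rw [← h4, Complex.conj_conj]

theorem kern_neg (hK : Kern K α) : Kern (fun w => K (-w)) α where
  pos := hK.pos
  diff := fun w hw => by
    have h3 : DifferentiableAt ℂ K (-w) := hK.diff _ (by simpa using hw)
    exact h3.comp w (differentiable_neg _)
  herm := fun u => by
    have := hK.herm (-u)
    simp only [Complex.ofReal_neg, neg_neg] at this ⊢
    exact this
  dec := fun Y h0 h1 M => by
    obtain ⟨C, hC, h⟩ := hK.dec Y h0 h1 M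
    refine ⟨C, hC, fun w hw => ?_⟩
    have := h (-w) (by simpa using hw)
    simpa using this
  gro := by
    obtain ⟨C, hC, h⟩ := hK.gro
    refine ⟨C, hC, fun R hR => ?_⟩
    have h1 := integral_neg_eq_self (fun u : ℝ => ‖K (u : ℂ)‖ * Real.exp (R * |u|)) volume
    simp only [Complex.ofReal_neg, abs_neg] at h1
    rw [h1]
    exact h R hR

theorem ms_neg (hK : Kern K α) (h : MS K α) : MS (fun w => K (-w)) α := by
  obtain ⟨C, c, p, δ0, hC, hc, hp, hδ0, hδα, hδ1, h⟩ := h
  refine ⟨C, c, p, δ0, hC, hc, hp, hδ0, hδα, hδ1, fun δ h0 h1 σ hσ => ?_⟩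
  obtain ⟨ha, hb, hd⟩ := h δ h0 h1 (-σ) (by rcases hσ with h | h <;> simp [h])
  have key : ∀ u : ℝ, ‖K (-((u : ℂ) + (σ * (α - δ) : ℝ) * I))‖ =
      ‖K ((u : ℂ) + (-σ * (α - δ) : ℝ) * I)‖ := by
    intro u
    have h2 : |((u : ℂ) + (-σ * (α - δ) : ℝ) * I).im| < α := by
      have h3 : ((u : ℂ) + (-σ * (α - δ) : ℝ) * I).im = -σ * (α - δ) := by simp
      rw [h3, abs_mul, abs_neg]
      have h4 : |σ| = 1 := by rcases hσ with h | h <;> simp [h]
      rw [h4, one_mul, abs_of_pos (by linarith)]
      linarith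
    have h3 := herm_strip hK _ h2
    have h4 : -conj ((u : ℂ) + (-σ * (α - δ) : ℝ) * I) = -((u : ℂ) + (σ * (α - δ) : ℝ) * I) := by
      simp only [map_add, map_mul, Complex.conj_I, Complex.conj_ofReal]
      push_cast
      ring
    rw [← h4, h3, Complex.norm_conj]
  simp only [key]
  exact ⟨ha, hb, hd⟩

theorem lt_neg (h : ℝ → ℂ) (z : ℂ) : Lt (fun u => h (-u)) z = Lt h (-z) := by
  unfold Lt
  rw [← integral_neg_eq_self (fun u : ℝ => h u * cexp (I * -z * u))]
  refine integral_congr_ae (Eventually.of_forall fun u => ?_)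
  simp only
  congr 2
  push_cast
  ring

theorem sym_deriv {f : ℂ → ℂ} (hf : Sym f) : Sym (deriv f) := by
  intro z
  have h1 : (starRingEnd ℂ) ∘ f ∘ (starRingEnd ℂ) = f := by
    funext w
    simp only [Function.comp_apply]
    rw [hf w, Complex.conj_conj]
  have h2 : deriv ((starRingEnd ℂ) ∘ f ∘ (starRingEnd ℂ)) =
      (starRingEnd ℂ) ∘ deriv f ∘ (starRingEnd ℂ) := deriv_conj_conj
  rw [h1] at h2
  have h3 := congrFun h2 ((starRingEnd ℂ) z)
  simp only [Function.comp_apply, Complex.conj_conj] at h3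
  exact h3

theorem ld_neg (X : ℂ → ℂ) (hs : Sym X) (h : LD X) : LD (fun z => X (-z)) := by
  obtain ⟨c0, h0, r0, C, x0, hc0, hr0, hrh, hC, hx0, h⟩ := h
  refine ⟨c0, h0, r0, C, x0, hc0, hr0, hrh, hC, hx0, fun x hx z hz => ?_⟩
  have e1 : -conj z - (((-x : ℝ) : ℂ) + h0 * I) = -conj (z - ((x : ℂ) + h0 * I)) := by
    simp only [map_sub, map_add, map_mul, Complex.conj_I, Complex.conj_ofReal]
    push_cast
    ring
  obtain ⟨h1, h2⟩ := h (-x) (by rwa [abs_neg]) (-conj z) (by
    rw [e1, norm_neg, Complex.norm_conj]; exact hz)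
  have e2 : X (-z) = conj (X (-conj z)) := by
    rw [← hs]; simp
  have e3 : deriv X (-z) = conj (deriv X (-conj z)) := by
    rw [← sym_deriv hs]; simp
  refine ⟨?_, ?_⟩
  · show X (-z) ≠ 0
    rw [e2]
    exact (_root_.map_ne_zero _).2 h1
  · have e4 : logDeriv (fun z => X (-z)) z + I * ((c0 * Real.log |x| : ℝ) : ℂ) =
        -conj (logDeriv X (-conj z) + I * ((c0 * Real.log |(-x)| : ℝ) : ℂ)) := by
      rw [logDeriv_apply, logDeriv_apply, deriv_comp_neg, e2, e3]
      simp only [map_add, map_mul, map_div₀, Complex.conj_I, Complex.conj_ofReal, abs_neg]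
      ring
    rw [e4, norm_neg, Complex.norm_conj]
    exact h2

theorem app_neg (m : ℕ) (f : ℂ → ℂ) (hf : App m f) : App m (fun z => f (-z)) := by
  intro R ε hε
  obtain ⟨P, hP, hd, h⟩ := hf R ε hε
  refine ⟨P.comp (-X), ?_, ?_, fun z hz => ?_⟩
  · intro h0
    have := congrArg (fun Q : ℝ[X] => Q.comp (-X)) h0
    simp only [comp_neg_X_comp_neg_X, zero_comp] at this
    exact hP this
  · rw [roots_comp_neg_X, Multiset.card_map, natDegree_comp, natDegree_neg, natDegree_X, mul_one]
    exact hd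
  · have h1 : aeval z (P.comp (-X)) = aeval (-z) P := by
      rw [aeval_comp]; simp
    rw [h1]
    exact h (-z) (by rwa [norm_neg])

/-- Reflection of kernels. -/
theorem r : S_R := by
  intro K α hK
  have hsym : Sym (Lt (fun u => K (u : ℂ))) := sym_Lt (fun u => hK.herm u)
  refine ⟨kern_neg hK, ms_neg hK, fun h => ?_, fun a m h => ?_⟩
  · have h1 := ld_neg _ hsym h
    have h2 : (fun z => Lt (fun u => K (u : ℂ)) (-z)) = Lt (fun u => K (-(u : ℂ))) := by
      funext z
      rw [← lt_neg]
      simp only [Complex.ofReal_neg]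
    rwa [h2] at h1
  · have h1 := app_neg _ _ h
    have h2 : (fun z => Lt (fun u => Ka K a (u : ℂ)) (-z)) =
        Lt (fun u => Ka (fun w => K (-w)) (-a) (u : ℂ)) := by
      funext z
      rw [← lt_neg]
      congr 1
      funext u
      unfold Ka
      simp only [Complex.ofReal_neg]
      congr 2
      rw [mul_neg, neg_div, div_neg]
    rwa [h2] at h1

end Pool.Agent.N170.GN
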